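import Pool.Agent.H18.VZ.Targets

/-!
# Embeddings and their reductions
-/

open MvPolynomial
open Pool.Agent.H12.ZD (pmap)
open Pool.Agent.H18.HIT Pool.Agent.H18.HX Pool.Agent.H18.VZ

namespace Pool.Agent.H27.VZ

open Polynomial in
theorem mem_of_root {L Ω : Type} [Field L] [Field Ω] [Algebra L Ω] (𝒪 : ValuationSubring Ω)
    (hL : ∀ y : L, algebraMap L Ω y ∈ 𝒪) (m : L[X]) (hm : m.Monic) (z : Ω)
    (hz : m.eval₂ (algebraMap L Ω) z = 0) : z ∈ 𝒪 := by
  have hint : IsIntegral 𝒪 z := by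
    refine ⟨m.map ((algebraMap L Ω).codRestrict 𝒪.toSubring hL), hm.map _, ?_⟩
    rw [Polynomial.eval₂_map]
    exact hz
  obtain ⟨w, hw⟩ := IsIntegrallyClosed.isIntegral_iff.1 hint
  rw [← hw]
  exact w.2

open Polynomial in
theorem pf_BIJ : T_BIJ := by
  intro L K Ω _ _ _ _ _ _ _ _ 𝒪 hL ϖ hϖ
  set φ : L →+* 𝒪 := (algebraMap L Ω).codRestrict 𝒪.toSubring hL with hφ
  set ψ : L →+* IsLocalRing.ResidueField 𝒪 := (IsLocalRing.residue 𝒪).comp φ with hψ
  have hψϖ : ∀ y, ψ y = ϖ (algebraMap L K y) := fun y => (hϖ y).symm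
  have hφΩ : ∀ y, algebraMap 𝒪 Ω (φ y) = algebraMap L Ω y := fun y => rfl
  have hφc : (algebraMap 𝒪 Ω).comp φ = algebraMap L Ω := RingHom.ext hφΩ
  have hinj : Function.Injective (algebraMap 𝒪 Ω) := Subtype.val_injective
  -- all embeddings have values in the valuation ring
  have hmem : ∀ (σ : K →ₐ[L] Ω) (y : K), σ y ∈ 𝒪 := by
    intro σ y
    refine mem_of_root 𝒪 hL (minpoly L y) (minpoly.monic (Algebra.IsIntegral.isIntegral y)) _ ?_
    have h := congrArg σ (minpoly.aeval L y)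
    rw [map_zero, ← Polynomial.aeval_algHom_apply] at h
    rw [← h, Polynomial.aeval_def]
  set pb := Field.powerBasisOfFiniteOfSeparable L K with hpb
  set θ := pb.gen with hθ
  set m := minpoly L θ with hm
  have hmint : IsIntegral L θ := Algebra.IsIntegral.isIntegral θ
  have hmm : m.Monic := minpoly.monic hmint
  have hsep : m.Separable := Algebra.IsSeparable.isSeparable L θ
  -- roots of the minimal polynomial
  have hroot𝒪 : ∀ ρ ∈ (m.map (algebraMap L Ω)).roots, ρ ∈ 𝒪 := by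
    intro ρ hρ
    refine mem_of_root 𝒪 hL m hmm ρ ?_
    have := (Polynomial.mem_roots'.1 hρ).2
    rwa [Polynomial.IsRoot.def, Polynomial.eval_map] at this
  have hfac : m.map φ = ((m.map (algebraMap L Ω)).roots.attach.map
      (fun ρ => (Polynomial.X - Polynomial.C (⟨ρ.1, hroot𝒪 ρ.1 ρ.2⟩ : 𝒪)))).prod := by
    apply Polynomial.map_injective (algebraMap 𝒪 Ω) hinj
    rw [Polynomial.map_map, hφc, Polynomial.map_multiset_prod, Multiset.map_map]
    have e1 : (m.map (algebraMap L Ω)).roots.attach.map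
        ((Polynomial.map (algebraMap 𝒪 Ω)) ∘
          (fun ρ => (Polynomial.X - Polynomial.C (⟨ρ.1, hroot𝒪 ρ.1 ρ.2⟩ : 𝒪)))) =
        (m.map (algebraMap L Ω)).roots.map (fun ρ => Polynomial.X - Polynomial.C ρ) := by
      rw [← Multiset.attach_map_val' _ (fun ρ : Ω => Polynomial.X - Polynomial.C ρ)]
      refine Multiset.map_congr rfl ?_
      intro ρ _
      simp only [Function.comp, Polynomial.map_sub, Polynomial.map_X, Polynomial.map_C]
      rfl
    rw [e1]
    exact (IsAlgClosed.splits (m.map (algebraMap L Ω))).eq_prod_roots_of_monic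
      (hmm.map (algebraMap L Ω))
  have hϖθ : m.eval₂ ψ (ϖ θ) = 0 := by
    have h := congrArg ϖ (minpoly.aeval L θ)
    rw [map_zero, Polynomial.aeval_def, Polynomial.hom_eval₂] at h
    have e : ϖ.comp (algebraMap L K) = ψ := RingHom.ext fun y => (hψϖ y).symm
    rwa [e] at h
  obtain ⟨ρ, hρ, hρϖ⟩ : ∃ ρ, ∃ h : ρ ∈ (m.map (algebraMap L Ω)).roots,
      IsLocalRing.residue 𝒪 ⟨ρ, hroot𝒪 ρ h⟩ = ϖ θ := by
    rw [hψ, ← Polynomial.eval₂_map, hfac, Polynomial.eval₂_multiset_prod, Multiset.map_map,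
      Multiset.prod_eq_zero_iff, Multiset.mem_map] at hϖθ
    obtain ⟨ρ, -, h⟩ := hϖθ
    refine ⟨ρ.1, ρ.2, ?_⟩
    simp only [Function.comp, Polynomial.eval₂_sub, Polynomial.eval₂_X, Polynomial.eval₂_C] at h
    exact (sub_eq_zero.1 h).symm
  have hρ0 : Polynomial.aeval ρ (minpoly L pb.gen) = 0 := by
    have := (Polynomial.mem_roots'.1 hρ).2
    rw [Polynomial.IsRoot.def, Polynomial.eval_map] at this
    rw [Polynomial.aeval_def]
    exact this
  set σ : K →ₐ[L] Ω := pb.lift ρ hρ0 with hσ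
  have hσθ : σ θ = ρ := pb.lift_gen ρ hρ0
  refine ⟨σ, hmem σ, ?_, ?_⟩
  · -- the reduction of σ is ϖ
    let _ : Algebra L (IsLocalRing.ResidueField 𝒪) := ψ.toAlgebra
    have hcod : ∀ y, σ y ∈ 𝒪.toSubring := hmem σ
    set f1 : K →+* IsLocalRing.ResidueField 𝒪 :=
      (IsLocalRing.residue 𝒪).comp ((σ : K →+* Ω).codRestrict 𝒪.toSubring hcod) with hf1
    let g1 : K →ₐ[L] IsLocalRing.ResidueField 𝒪 :=
      { f1 with
        commutes' := by
          intro y
          change IsLocalRing.residue 𝒪 ⟨σ (algebraMap L K y), _⟩ = ψ y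
          simp only [AlgHom.commutes]
          rfl }
    let g2 : K →ₐ[L] IsLocalRing.ResidueField 𝒪 :=
      { ϖ with
        commutes' := by
          intro y
          exact (hψϖ y).symm }
    have hg : g1 = g2 := by
      refine pb.algHom_ext ?_
      change IsLocalRing.residue 𝒪 ⟨σ θ, _⟩ = ϖ θ
      rw [← hρϖ]
      congr 1
      exact Subtype.ext hσθ
    intro y
    exact congrArg (fun g : K →ₐ[L] IsLocalRing.ResidueField 𝒪 => g y) hg
  · intro σ' hσ'
    refine pb.algHom_ext ?_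
    by_contra hne
    set a : 𝒪 := ⟨σ θ, hmem σ θ⟩ with ha
    set b : 𝒪 := ⟨σ' θ, hmem σ' θ⟩ with hb
    have hab : b ≠ a := fun h => hne (congrArg Subtype.val h)
    have hres : IsLocalRing.residue 𝒪 b = IsLocalRing.residue 𝒪 a := by
      rw [← sub_eq_zero, ← map_sub, IsLocalRing.residue_eq_zero_iff]
      exact (ValuationSubring.valuation_lt_one_iff 𝒪 _).2 (hσ' θ)
    have hrt : ∀ τ : K →ₐ[L] Ω, ∀ c : 𝒪, (c : Ω) = τ θ → (m.map φ).eval c = 0 := by
      intro τ c hc
      apply hinj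
      rw [map_zero, ← Polynomial.eval₂_at_apply, Polynomial.eval₂_map, hφc]
      have h := congrArg τ (minpoly.aeval L θ)
      rw [map_zero, ← Polynomial.aeval_algHom_apply, Polynomial.aeval_def] at h
      change Polynomial.eval₂ (algebraMap L Ω) (c : Ω) m = 0
      rw [hc]
      exact h
    have hra := hrt σ a rfl
    have hrb := hrt σ' b rfl
    obtain ⟨q, hq⟩ := Polynomial.dvd_iff_isRoot.2 hra
    have hqb : q.eval b = 0 := by
      rw [hq, Polynomial.eval_mul, mul_eq_zero] at hrb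
      rcases hrb with h | h
      · rw [Polynomial.eval_sub, Polynomial.eval_X, Polynomial.eval_C, sub_eq_zero] at h
        exact absurd h hab
      · exact h
    have hqa : IsLocalRing.residue 𝒪 (q.eval a) = 0 := by
      have h1 : IsLocalRing.residue 𝒪 (q.eval a) = IsLocalRing.residue 𝒪 (q.eval b) := by
        rw [← Polynomial.eval₂_at_apply, ← Polynomial.eval₂_at_apply, hres]
      rw [h1, hqb, map_zero]
    have hder : (Polynomial.derivative (m.map φ)).eval a = q.eval a := by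
      rw [hq, Polynomial.derivative_mul]
      simp
    have h2 := hsep.eval₂_derivative_ne_zero ψ (x := IsLocalRing.residue 𝒪 a) (by
      rw [hψ, ← Polynomial.eval₂_map, Polynomial.eval₂_at_apply, hra, map_zero])
    apply h2
    rw [hψ, ← Polynomial.eval₂_map, ← Polynomial.derivative_map, Polynomial.eval₂_at_apply,
      hder, hqa]

end Pool.Agent.H27.VZ
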