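import Pool.Agent.H18.VZ.Targets

/-!
# Symmetric functions of the conjugates
-/

open Pool.Agent.H12.ZD (pmap)
open Pool.Agent.H18.HIT Pool.Agent.H18.HX Pool.Agent.H18.VZ

namespace Pool.Agent.H27.VZ

theorem sum_prod_equiv {α β R : Type*} [Fintype α] [Fintype β] [DecidableEq α] [DecidableEq β]
    [CommRing R] (E : α ≃ β) (f g : β → R) :
    ∑ a, g (E a) * ∏ a' ∈ Finset.univ.erase a, f (E a') =
      ∑ b, g b * ∏ b' ∈ Finset.univ.erase b, f b' := by
  rw [← Equiv.sum_comp E (fun b => g b * ∏ b' ∈ Finset.univ.erase b, f b')]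
  refine Finset.sum_congr rfl fun a _ => ?_
  congr 1
  refine Finset.prod_equiv E ?_ (fun _ _ => rfl)
  intro i
  simp [Finset.mem_erase]

/-- the product -/
noncomputable def QQ (L K Ω : Type) [Field L] [Field K] [Field Ω] [Algebra L K] [Algebra L Ω]
    [FiniteDimensional L K] (y : K) : Polynomial Ω :=
  ∏ σ : K →ₐ[L] Ω, (Polynomial.X - Polynomial.C (σ y))

open Classical in
/-- the sums -/
noncomputable def VV (L K Ω : Type) [Field L] [Field K] [Field Ω] [Algebra L K] [Algebra L Ω]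
    [FiniteDimensional L K] (x y : K) (j : ℕ) : Polynomial Ω :=
  ∑ σ : K →ₐ[L] Ω, Polynomial.C (σ x ^ j) *
    ∏ σ' ∈ Finset.univ.erase σ, (Polynomial.X - Polynomial.C (σ' y))

section

variable {L K Ω Ω' : Type} [Field L] [CharZero L] [Field K] [Field Ω] [Field Ω'] [IsAlgClosed Ω]
  [IsAlgClosed Ω'] [Algebra L K] [Algebra L Ω] [Algebra L Ω'] [FiniteDimensional L K]

theorem comp_bij (τ : Ω →ₐ[L] Ω') :
    Function.Bijective (fun σ : K →ₐ[L] Ω => τ.comp σ) := by
  rw [Fintype.bijective_iff_injective_and_card]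
  refine ⟨?_, ?_⟩
  · intro σ σ' h
    ext z
    have h1 : τ (σ z) = τ (σ' z) := congrArg (fun g : K →ₐ[L] Ω' => g z) h
    exact (τ : Ω →+* Ω').injective h1
  · rw [AlgHom.card L K Ω, AlgHom.card L K Ω']

theorem map_QQ (τ : Ω →ₐ[L] Ω') (y : K) :
    (QQ L K Ω y).map (τ : Ω →+* Ω') = QQ L K Ω' y := by
  unfold QQ
  rw [Polynomial.map_prod]
  rw [← Equiv.prod_comp (Equiv.ofBijective _ (comp_bij (K := K) τ))
    (fun σ : K →ₐ[L] Ω' => (Polynomial.X - Polynomial.C (σ y)))]
  refine Finset.prod_congr rfl fun σ _ => ?_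
  simp

theorem map_VV (τ : Ω →ₐ[L] Ω') (x y : K) (j : ℕ) :
    (VV L K Ω x y j).map (τ : Ω →+* Ω') = VV L K Ω' x y j := by
  classical
  unfold VV
  rw [← sum_prod_equiv (Equiv.ofBijective _ (comp_bij (K := K) τ))
    (fun σ : K →ₐ[L] Ω' => (Polynomial.X - Polynomial.C (σ y)))
    (fun σ : K →ₐ[L] Ω' => Polynomial.C (σ x ^ j))]
  rw [Polynomial.map_sum]
  refine Finset.sum_congr rfl fun σ _ => ?_
  rw [Polynomial.map_mul, Polynomial.map_prod, Polynomial.map_C]
  simp

end

theorem lift_of_fixed (S L : Type) [CommRing S] [IsDomain S] [IsIntegrallyClosed S]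
    [Field L] [CharZero L] [Algebra S L] [IsFractionRing S L]
    (p : Polynomial (AlgebraicClosure L))
    (h1 : p ∈ Polynomial.liftsRing (algebraMap (integralClosure S (AlgebraicClosure L))
      (AlgebraicClosure L)))
    (h2 : ∀ τ : AlgebraicClosure L ≃ₐ[L] AlgebraicClosure L,
      p.map ((τ : AlgebraicClosure L →ₐ[L] AlgebraicClosure L) :
        AlgebraicClosure L →+* AlgebraicClosure L) = p) :
    p ∈ Polynomial.lifts (algebraMap S (AlgebraicClosure L)) := by
  rw [Polynomial.lifts_iff_coeff_lifts]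
  intro n
  have h3 : IsIntegral S (p.coeff n) := by
    have h4 : p ∈ Polynomial.lifts (algebraMap (integralClosure S (AlgebraicClosure L))
      (AlgebraicClosure L)) := (Polynomial.lifts_iff_liftsRing _ _).2 h1
    obtain ⟨c, hc⟩ := (Polynomial.lifts_iff_coeff_lifts p).1 h4 n
    rw [← hc]
    exact c.2
  have h5 : p.coeff n ∈ Set.range (algebraMap L (AlgebraicClosure L)) := by
    rw [InfiniteGalois.mem_range_algebraMap_iff_fixed]
    intro τ
    have h6 := congrArg (fun q : Polynomial (AlgebraicClosure L) => q.coeff n) (h2 τ)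
    simpa [Polynomial.coeff_map] using h6
  obtain ⟨l, hl⟩ := h5
  have h7 : IsIntegral S l := by
    rw [← hl] at h3
    exact (isIntegral_algebraMap_iff (algebraMap L (AlgebraicClosure L)).injective).1 h3
  obtain ⟨s, hs⟩ := IsIntegrallyClosed.isIntegral_iff.1 h7
  refine ⟨s, ?_⟩
  rw [IsScalarTower.algebraMap_apply S L (AlgebraicClosure L), hs, hl]

theorem pf_TRA : T_TRA := by
  classical
  intro S L K _ _ _ _ _ _ _ _ _ _ _ _ x y hx hy
  have hchar : CharZero L := by
    refine ⟨fun a b hab => ?_⟩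
    have h1 : algebraMap S L (a : S) = algebraMap S L (b : S) := by simpa using hab
    exact Nat.cast_injective (IsFractionRing.injective S L h1)
  let Ω₀ := AlgebraicClosure L
  have hi : ∀ (σ : K →ₐ[L] Ω₀) (z : K), IsIntegral S z → IsIntegral S (σ z) := by
    intro σ z hz
    exact hz.map (σ.restrictScalars S)
  have hmemC : ∀ z : Ω₀, IsIntegral S z →
      Polynomial.C z ∈ Polynomial.liftsRing (algebraMap (integralClosure S Ω₀) Ω₀) := by
    intro z hz
    rw [← Polynomial.lifts_iff_liftsRing]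
    exact Polynomial.C_mem_lifts _ (⟨z, hz⟩ : integralClosure S Ω₀)
  have hmemX : (Polynomial.X : Polynomial Ω₀) ∈
      Polynomial.liftsRing (algebraMap (integralClosure S Ω₀) Ω₀) := by
    rw [← Polynomial.lifts_iff_liftsRing]
    exact Polynomial.X_mem_lifts _
  have hQ1 : QQ L K Ω₀ y ∈ Polynomial.liftsRing (algebraMap (integralClosure S Ω₀) Ω₀) :=
    Subring.prod_mem _ fun σ _ => Subring.sub_mem _ hmemX (hmemC _ (hi σ y hy))
  have hV1 : ∀ j, VV L K Ω₀ x y j ∈
      Polynomial.liftsRing (algebraMap (integralClosure S Ω₀) Ω₀) := fun j =>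
    Subring.sum_mem _ fun σ _ => Subring.mul_mem _ (hmemC _ ((hi σ x hx).pow j))
      (Subring.prod_mem _ fun σ' _ => Subring.sub_mem _ hmemX (hmemC _ (hi σ' y hy)))
  have hQ2 := lift_of_fixed S L (QQ L K Ω₀ y) hQ1
    (fun τ => map_QQ (τ : Ω₀ →ₐ[L] Ω₀) y)
  have hV2 := fun j => lift_of_fixed S L (VV L K Ω₀ x y j) (hV1 j)
    (fun τ => map_VV (τ : Ω₀ →ₐ[L] Ω₀) x y j)
  have hmon : (QQ L K Ω₀ y).Monic :=
    Polynomial.monic_prod_of_monic _ _ fun σ _ => Polynomial.monic_X_sub_C _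
  have hdeg : (QQ L K Ω₀ y).natDegree = Module.finrank L K := by
    unfold QQ
    rw [Polynomial.natDegree_finsetProd_X_sub_C_eq_card, Finset.card_univ, AlgHom.card]
  obtain ⟨χ, hχ1, hχ2, hχ3⟩ := Polynomial.lifts_and_natDegree_eq_and_monic hQ2 hmon
  choose U hU using fun j => (Polynomial.mem_lifts _).1 (hV2 j)
  refine ⟨χ, U, hχ3, hχ2.trans hdeg, ?_⟩
  intro Ω _ _ _ e
  let τ : Ω₀ →ₐ[L] Ω := IsAlgClosed.lift
  have hτ : ((τ : Ω₀ →+* Ω)).comp (algebraMap S Ω₀) =
      (algebraMap L Ω).comp (algebraMap S L) := by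
    rw [IsScalarTower.algebraMap_eq S L Ω₀, ← RingHom.comp_assoc]
    congr 1
    exact τ.comp_algebraMap
  constructor
  · rw [← hτ, ← Polynomial.map_map, hχ1, map_QQ τ y]
    unfold QQ
    exact (Equiv.prod_comp e (fun σ : K →ₐ[L] Ω => (Polynomial.X - Polynomial.C (σ y)))).symm
  · intro j
    rw [← hτ, ← Polynomial.map_map, hU j, map_VV τ x y j]
    unfold VV
    exact (sum_prod_equiv e (fun σ : K →ₐ[L] Ω => (Polynomial.X - Polynomial.C (σ y)))
      (fun σ : K →ₐ[L] Ω => Polynomial.C (σ x ^ j))).symm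

end Pool.Agent.H27.VZ
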